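import Mathlib
import Pool.Agent.R104.QRado2

set_option autoImplicit false

namespace Pool.Agent.Results.MP_ca0b96_co.QRadoTheorem

open Module Submodule Pool.Agent.R104.QRado

variable {K V : Type*} [Field K] [AddCommGroup V] [Module K V] [FiniteDimensional K V]

theorem step {n : ℕ} {H : Fin n → Submodule K V} (hH : ∀ i, finrank K V ≤ finrank K (H i) + 1)
    (T : Submodule K V) (J J' : Finset (Fin n)) :
    finrank K (T ⊓ XJ H J : Submodule K V) ≤
      finrank K (T ⊓ XJ H (J ∪ J') : Submodule K V) + J'.card := by
  classical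
  induction J' using Finset.induction_on with
  | empty => rw [Finset.union_empty]; exact Nat.le_add_right _ _
  | insert i J' hi ih =>
    rw [Finset.card_insert_of_notMem hi, Finset.union_insert, XJ_insert]
    have h1 := finrank_sup_add_finrank_inf_eq (T ⊓ XJ H (J ∪ J')) (H i)
    have h2 := finrank_le (R := K) (T ⊓ XJ H (J ∪ J') ⊔ H i)
    have h3 := hH i
    have h4 : T ⊓ XJ H (J ∪ J') ⊓ H i = T ⊓ (H i ⊓ XJ H (J ∪ J')) := by
      rw [inf_assoc, inf_comm (XJ H (J ∪ J'))]
    rw [h4] at h1
    omega

/-- **The `q`-analogue of Rado's theorem**, over any field `K` (in particular over every finite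
field): the family `X_1, ..., X_n` of subspaces of `V` has a `q`-transversal that is independent in
the `q`-matroid `M` if and only if `n̄(X(J)) + |J| ≤ n̄(V)` for all `J`. -/
theorem result (M : QMatroid K V) (n : ℕ) (X : Fin n → Submodule K V) :
    (∃ T : Submodule K V, IsQTransversal X T ∧ M.Indep T) ↔
      ∀ J : Finset (Fin n), M.barNullity (⨅ j ∈ J, X j) + J.card ≤ M.barNullity ⊤ := by
  classical
  constructor
  · rintro ⟨T, hT, hTi⟩ J
    show M.barNullity (XJ X J) + J.card ≤ M.barNullity ⊤
    have hTn := hT.1
    have h1 := (transversal_iff X T hTn).1 hT J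
    obtain ⟨B, hB, hTB⟩ := M.exists_basis hTi
    have h2 := M.barNullity_le (X := XJ X J) hB
    have h3 := M.finrank_basis hB
    have h4 := finrank_sup_add_finrank_inf_eq (B ⊓ XJ X J) T
    have h5 : finrank K (B ⊓ XJ X J ⊔ T : Submodule K V) ≤ finrank K B :=
      finrank_mono (sup_le inf_le_left hTB)
    have h6 : finrank K (B ⊓ XJ X J ⊓ T : Submodule K V) ≤
        finrank K (T ⊓ XJ X J : Submodule K V) :=
      finrank_mono (le_inf inf_le_right (inf_le_left.trans inf_le_right))
    rw [M.barNullity_top]
    omega
  · intro h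
    have hr : ∀ J : Finset (Fin n), M.barNullity (XJ X J) + J.card ≤ M.r ⊤ := by
      intro J
      have := h J
      rwa [M.barNullity_top] at this
    have hdim : ∀ J : Finset (Fin n), finrank K (XJ X J) + J.card ≤ finrank K V := by
      intro J
      obtain ⟨B, hB, h1⟩ := M.barNullity_mem (XJ X J)
      have h2 := hr J
      have h3 := M.finrank_basis hB
      have h4 := finrank_sup_add_finrank_inf_eq B (XJ X J)
      have h5 := finrank_le (R := K) (B ⊔ XJ X J)
      omega
    obtain ⟨H, hXH, hH1, hHJ⟩ := enlarge X hdim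
    have hn : n ≤ M.r ⊤ := by
      have := hr Finset.univ
      rw [Finset.card_univ, Fintype.card_fin] at this
      omega
    have hHn := hHJ Finset.univ
    rw [Finset.card_univ, Fintype.card_fin] at hHn
    obtain ⟨T, hTi, hTn, hTH⟩ := exists_avoid M hHn hn n le_rfl
    refine ⟨T, (transversal_iff X T hTn).2 (fun J => ?_), hTi⟩
    have h1 := step hH1 T J Jᶜ
    rw [Finset.union_compl, inf_comm T (XJ H Finset.univ), hTH.eq_bot, finrank_bot,
      Finset.card_compl, Fintype.card_fin] at h1
    have h2 : finrank K (T ⊓ XJ X J : Submodule K V) ≤ finrank K (T ⊓ XJ H J : Submodule K V) :=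
      finrank_mono (inf_le_inf_left T (XJ_mono hXH J))
    have h3 : J.card ≤ n := by
      have := Finset.card_le_univ J
      rwa [Fintype.card_fin] at this
    omega

end Pool.Agent.Results.MP_ca0b96_co.QRadoTheorem
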